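import Mathlib
import Pool.Agent.H92.ArithP1
import Pool.Agent.H92.ArithFinal

set_option autoImplicit false

open Pool.Agent.H92.ArithP1

namespace Pool.Agent.Results.MP_cefe55_nt.SurfaceCounterexample

/-- Part (ii) of the higher-dimensional Kawaguchi-Silverman conjecture fails for
`X = ℙ¹ × ℙ¹` (regular model `ℙ¹_ℤ × ℙ¹_ℤ`), the surjective endomorphism
`f (x, y) = (x ^ a, y ^ b)` with `2 ≤ a < b`, and the diagonal `V` (so `k = 1`):
the orbit of `V` is Zariski dense, but `α₂(f; V) = b` while `α₂(f) = a * b`. -/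
theorem result (a b : ℕ) (ha : 2 ≤ a) (hab : a < b) :
    ∃ (H : HermLB 2) (f : Mor 2 2) (φ : Mor 1 2),
      H.ArithAmple ∧
      (∀ (K : Type) [Field K] (z : Fin 2 → Fin 2 → K),
        f.map z = ![fun c => z 0 c ^ a, fun c => z 1 c ^ b]) ∧
      (∀ (K : Type) [Field K] (t : Fin 1 → Fin 2 → K), φ.map t = ![t 0, t 0]) ∧
      f.SurjectiveOnPoints ∧
      φ.HasRetraction ∧
      DenseOrbit f φ ∧
      alphaSub H f φ = b ∧
      alpha H f 2 = a * b := by
  refine ⟨EB (fun _ => 1), powMor ![a, b], diagMor, EB_ample 2, ?_, ?_, ?_, diag_retraction,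
    dense_orbit a b (by omega) hab, alphaSub_eq a b (by omega) hab,
    alpha_eq a b (by omega) (by omega)⟩
  · intro K _ z
    rw [powMor_map]
    funext j c
    fin_cases j <;> rfl
  · intro K _ t
    rw [diagMor_map]
    funext j c
    fin_cases j <;> rfl
  · apply powMor_surj
    intro i
    fin_cases i
    · simp; omega
    · simp; omega

end Pool.Agent.Results.MP_cefe55_nt.SurfaceCounterexample
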